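import Pool.Agent.Lib_helper69.Seg.Final
import Pool.Agent.Lib_helper69.Seg.Canon
import Pool.Agent.Lib_helper69.Seg.MemConn
import Pool.Agent.Lib_helper69.Seg.InjOut
import Pool.Agent.Lib_helper69.Seg.Rot
import Pool.Agent.Lib_helper69.Seg.Ncf
import Pool.Agent.Lib_helper69.Seg.Ncft
import Pool.Agent.Lib_helper69.Seg.Nct
import Pool.Agent.Lib_helper69.Seg.Par
import Pool.Agent.Lib_helper69.Seg.Sound
import Pool.Agent.Lib_helper69.Seg.Poly
import Pool.Agent.Lib_helper69.Seg.Str

/-!
# Drawing a plane graph on assigned segments without obstacles

Simple stretchability (a classical complete problem for the existential theory of the reals)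
reduces in polynomial time to the question whether a connected plane graph has a crossing-free
straight-line drawing realising its embedding with every vertex on its prescribed closed segment.
-/

set_option autoImplicit false

namespace Pool.Agent.Results.MP_23bbe6_lc.NoObstaclesHard

open Pool.Agent.SegDraw Pool.Agent.Poly

/-- There is a polynomial time function `f` which maps every instance `a` of simple stretchability
to a connected plane graph with a closed segment for each vertex, such that `a` is stretchable if
and only if the graph has a crossing-free straight-line drawing which realises its embedding and has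
every vertex on its segment. -/
theorem result : ∃ f : StretchInst → Inst, PolyTime f ∧
    ∀ a, (IsPlane (f a) ∧ ∀ x ∈ (f a).1, x.2.1.2 = true) ∧ (Stretchable a ↔ Drawable (f a)) :=
  assemble mem par
    (draw canon canon2 nbrOk mem conn inj rot out ncf ncft nct)
    (graph canon nbrOk mem conn) (sound mem) poly str1 str2 str3

end Pool.Agent.Results.MP_23bbe6_lc.NoObstaclesHard
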